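import Pool.Agent.Results.MP_e44225_nt.OneExceptionalSet
import Pool.Agent.V11326.WP

/-!
# The error term in Vojta's inequality for ALL points, of whatever height, whose conductors are close to powers of a
# typical base

Let `K` be a number field and `a_1, …, a_q` distinct rational numbers, `q ≥ 3`. For `x ∈ K` let `N(x)` be the truncated
counting function of `x` with respect to `[a_1] + … + [a_q]`, so that `exp N(x)` is the conductor of `x` (a natural
number). There are `X ^ (2 / q + o(1))` elements with `exp N(x) ≤ X`, of all heights. Let `lam n / log n → ∞`, for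
example `lam n = n`, and let `U` be a countable set. For all real `z > 1` outside a set `F` of small Hausdorff dimension, and
of measure zero if `θ` is small, and all `β > 0` in `U` there is `n₀` such that ALL `x ∈ K` with
`|exp (2 N(x) / q) - β z ^ lam n| ≤ z ^ (θ lam n)` for some `n ≥ n₀` have the following property.

Let `k` be any number field, let `A` be a Dedekind domain, finite over `k[t]` and containing it (the ring of functions of a
smooth affine curve over `k` which is finite over the `t`-line), of rank `N`, and let `y_{j 0} = t - a_j, y_{j 1}, …` be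
elements of the radical of the ideal `(t - a_j)` of `A`, for example generators. Write `g` for
`q - 2 - (∑_j dim (A / (y_{j 0}, y_{j 1}, …))) / N`.

(1) There is a constant `c` such that for all these `x`, all points `P` of the curve with `t(P) = x`, all number fields `L`
containing `k` and `K` over which `P` is defined and all finite sets `S` of primes
`m_S(F, P) + g h(x) ≤ d(L) - (2 - κ) h(x) + ∑_{p ∈ S} log p + c`.

(2) For every finite set `S` of primes, all but finitely many of these `x` satisfy
`m_S(F, P) + g h(x) < d(L) - (2 - κ) h(x)` for all these `P` and `L`.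

The proof combines the starting result `OneExceptionalSet` with the theorem of helper1 that the powers of almost every base
avoid thin sets. The definitions are those of `OneExceptionalSet`.
-/

set_option autoImplicit false

namespace Pool.Agent.Results.MP_e44225_nt.ConductorsNearPowers

open Polynomial IsDedekindDomain NumberField MeasureTheory
open Pool.Agent.Results.MP_e44225_nt.OneExceptionalSet

/-- `lam n / log n` tends to infinity (for example `lam n = n`, `n!`). -/
def Fast (lam : ℕ → ℝ) : Prop := Filter.Tendsto (fun n : ℕ => lam n / Real.log n) Filter.atTop Filter.atTop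

/-- The elements of `K`, different from the `a_j`, with `|(exp N(x)) ^ (2 / q) - β z ^ l| ≤ z ^ (θ l)`. -/
def Window (K : Type) [Field K] [NumberField K] {q : ℕ} (a : Fin q → ℚ) (β z l θ : ℝ) : Set K :=
  {x | (∀ j, x ≠ algebraMap ℚ K (a j)) ∧
    |Real.exp (2 / (q : ℝ) * counting (fun j => algebraMap ℚ K (a j)) x) - β * z ^ l| ≤ z ^ (θ * l)}

theorem result (K : Type) [Field K] [NumberField K] (q : ℕ) (hq : 3 ≤ q) (a : Fin q → ℚ)
    (ha : Function.Injective a) (κ : ℝ) (hκ : 0 < κ) :
    ∃ ν : ℝ, 0 < ν ∧ ν ≤ 1 ∧ ∀ (lam : ℕ → ℝ) (θ : ℝ), Fast lam → θ < 1 → ∀ U : Set ℝ, U.Countable →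
      ∃ F : Set ℝ, dimH F ≤ ENNReal.ofReal ((1 - ν) / (1 - θ)) ∧
        (θ < ν → volume F = 0) ∧
        ∀ z : ℝ, 1 < z → z ∉ F → ∀ β ∈ U, 0 < β → ∃ n₀ : ℕ,
        ∀ (k : Type) [Field k] [NumberField k] (A : Type) [CommRing A] [IsDedekindDomain A]
        [Algebra k A] [Algebra k[X] A] [IsScalarTower k k[X] A] [Module.Finite k[X] A]
        [FaithfulSMul k[X] A] (u : Fin q → ℕ) (y : ∀ j, Fin (u j + 1) → A),
        (∀ j, y j 0 = coord k A - algebraMap k A (algebraMap ℚ k (a j))) →
        (∀ j i, y j i ∈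
          (Ideal.span {coord k A - algebraMap k A (algebraMap ℚ k (a j))}).radical) →
        (∃ c : ℝ, ∀ n : ℕ, n₀ ≤ n → ∀ x ∈ Window K a β z (lam n) θ,
          ∀ (L : Type) [Field L] [NumberField L] [Algebra K L] [Algebra k L] (φ : A →ₐ[k] L),
            φ (coord k A) = algebraMap K L x → ∀ S : Finset ℕ, (∀ p ∈ S, p.Prime) →
              proximity S y φ + canonical k y * height x ≤
                logDisc L - (2 - κ) * height x + ∑ p ∈ S, Real.log p + c) ∧
        ∀ S : Finset ℕ, (∀ p ∈ S, p.Prime) → ∃ R : Set K, R.Finite ∧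
          ∀ n : ℕ, n₀ ≤ n → ∀ x ∈ Window K a β z (lam n) θ, x ∉ R →
          ∀ (L : Type) [Field L] [NumberField L] [Algebra K L] [Algebra k L] (φ : A →ₐ[k] L),
            φ (coord k A) = algebraMap K L x →
              proximity S y φ + canonical k y * height x < logDisc L - (2 - κ) * height x := by
  obtain ⟨h1, h2⟩ := OneExceptionalSet.result K q hq a ha
  obtain ⟨C1, hC1⟩ := (h1 1 one_pos).1
  obtain ⟨E, ⟨ν, C, hν, -, hC⟩, -, hE⟩ := h2 κ hκ
  have hqr : (0 : ℝ) < q := by exact_mod_cast (by omega : 0 < q)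
  obtain ⟨ν', hν', hν1, hmain⟩ := Pool.Agent.V11326.WP.single (r := 2 / (q : ℝ)) (by positivity) E
    (fun x : K => ∀ j, x ≠ algebraMap ℚ K (a j)) (fun x => counting (fun j => algebraMap ℚ K (a j)) x) hν (C := C)
    (fun X hX => (hC1 X hX).1) hC
  refine ⟨ν', hν', hν1, fun lam θ hlam hθ U hU => ?_⟩
  obtain ⟨F, hF, hF0, h3⟩ := hmain lam θ hlam hθ U hU
  refine ⟨F, hF, hF0, fun z hz hzF β hβ hβ0 => ?_⟩
  obtain ⟨n₀, hn⟩ := h3 z hz hzF β hβ hβ0
  refine ⟨n₀, ?_⟩
  intro k _ _ A _ _ _ _ _ _ _ u y hy0 hyr
  obtain ⟨⟨c, hc⟩, h4⟩ := hE k A u y hy0 hyr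
  refine ⟨⟨c, fun n hnn x hx L _ _ _ _ φ hφ S hS => hc x (hn n hnn x hx.1 hx.2) hx.1 L φ hφ S hS⟩, fun S hS => ?_⟩
  obtain ⟨R, hR, h5⟩ := h4 S hS
  exact ⟨R, hR, fun n hnn x hx hxR L _ _ _ _ φ hφ => h5 x (hn n hnn x hx.1 hx.2) hxR hx.1 L φ hφ⟩


end Pool.Agent.Results.MP_e44225_nt.ConductorsNearPowers
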