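import Pool.Agent.Results.MP_e44225_nt.OneExceptionalSet
import Pool.Agent.H2N.NearSpace

/-!
# The error term in Vojta's inequality for ALL points of all curves over the numbers near a typical point

Let `K` be a number field and `a_1, …, a_q` distinct rational numbers, `q ≥ 3`. For `x ∈ K` let `N(x)` be the truncated
counting function of `x` with respect to `[a_1] + … + [a_q]`, so that `exp N(x)` is the conductor of `x` (a natural
number). There are `X ^ (2 / q + o(1))` elements with `exp N(x) ≤ X`, of all heights, so that for almost every real `z` there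
are only finitely many `x` with `|x - z| ≤ exp (-σ N(x))`, `σ > 2 / q`, for a given embedding of `K` in `ℝ`. We go below this
critical exponent.

For every `κ > 0` there is `ν > 0` such that for almost every real `z` and all `σ > 2 / q - ν` (here `κ` and `σ` may depend
on `z`) ALL `x ∈ K`, of whatever height, with `|x - z| ≤ exp (-σ N(x))` and not in a finite set have the following property.
For all number fields `k`, all smooth affine curves over `k` finite over the line, of rank `N`, all points `P` of the curve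
over `x`, all number fields `L` containing `k` and `K` over which `P` is defined
`m_S(F, P) + (deg K_C / N) h(x) ≤ d(L) - (2 - κ) h(x) + ∑_{p ∈ S} log p + c` for all `S`, with a constant `c` which depends
on the curve, and `m_S(F, P) + (deg K_C / N) h(x) < d(L) - (2 - κ) h(x)` for all but finitely many of these `x`, for every
`S`. So the inequality of the question holds, with a negative linear term in place of `C log⁺ h`, for the points of all
curves over the numbers near `z`, without further exceptions. The same holds for every map of `K` to a finite dimensional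
real vector space, for example to the product of the completions, and to a metric space.

The definitions of `counting`, `proximity`, `logDisc`, `canonical`, `height`, `coord` are those of the starting result
`OneExceptionalSet`.
-/

set_option autoImplicit false

namespace Pool.Agent.Results.MP_e44225_nt.NearAlmostEveryPoint

open Polynomial IsDedekindDomain NumberField MeasureTheory
open Pool.Agent.Results.MP_e44225_nt.OneExceptionalSet

/-- The error term in Vojta's inequality for all points of all curves over the elements `x ∈ J` (different from the `a_j`),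
outside a finite set `F` which does not depend on the curve: as in `OneExceptionalSet.result`. -/
def VojtaOn (K : Type) [Field K] [NumberField K] {q : ℕ} (a : Fin q → ℚ) (κ : ℝ) (J : Set K) : Prop :=
  ∃ F : Set K, F.Finite ∧
    ∀ (k : Type) [Field k] [NumberField k] (A : Type) [CommRing A] [IsDedekindDomain A]
      [Algebra k A] [Algebra k[X] A] [IsScalarTower k k[X] A] [Module.Finite k[X] A]
      [FaithfulSMul k[X] A] (u : Fin q → ℕ) (y : ∀ j, Fin (u j + 1) → A),
      (∀ j, y j 0 = coord k A - algebraMap k A (algebraMap ℚ k (a j))) →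
      (∀ j i, y j i ∈
        (Ideal.span {coord k A - algebraMap k A (algebraMap ℚ k (a j))}).radical) →
      (∃ c : ℝ, ∀ x ∈ J, x ∉ F → (∀ j, x ≠ algebraMap ℚ K (a j)) →
        ∀ (L : Type) [Field L] [NumberField L] [Algebra K L] [Algebra k L] (φ : A →ₐ[k] L),
          φ (coord k A) = algebraMap K L x → ∀ S : Finset ℕ, (∀ p ∈ S, p.Prime) →
            proximity S y φ + canonical k y * height x ≤
              logDisc L - (2 - κ) * height x + ∑ p ∈ S, Real.log p + c) ∧
      ∀ S : Finset ℕ, (∀ p ∈ S, p.Prime) → ∃ R : Set K, R.Finite ∧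
        ∀ x ∈ J, x ∉ R → (∀ j, x ≠ algebraMap ℚ K (a j)) →
        ∀ (L : Type) [Field L] [NumberField L] [Algebra K L] [Algebra k L] (φ : A →ₐ[k] L),
          φ (coord k A) = algebraMap K L x →
            proximity S y φ + canonical k y * height x < logDisc L - (2 - κ) * height x

/-- the truncated counting function of `[a_1] + … + [a_q]` -/
noncomputable def cnt (K : Type) [Field K] [NumberField K] {q : ℕ} (a : Fin q → ℚ) (x : K) : ℝ :=
  counting (fun j => algebraMap ℚ K (a j)) x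

theorem cnt_nonneg (K : Type) [Field K] [NumberField K] {q : ℕ} (a : Fin q → ℚ) (x : K) : 0 ≤ cnt K a x := by
  classical
  unfold cnt counting
  refine finsum_nonneg fun v => ?_
  split_ifs
  · exact Real.log_natCast_nonneg _
  · exact le_rfl

/-- the conductor -/
noncomputable def cond (K : Type) [Field K] [NumberField K] {q : ℕ} (a : Fin q → ℚ) (x : K) : ℝ :=
  Real.exp (cnt K a x)

theorem one_le_cond (K : Type) [Field K] [NumberField K] {q : ℕ} (a : Fin q → ℚ) (x : K) : 1 ≤ cond K a x :=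
  Real.one_le_exp (cnt_nonneg K a x)

theorem cond_rpow (K : Type) [Field K] [NumberField K] {q : ℕ} (a : Fin q → ℚ) (x : K) (σ : ℝ) :
    cond K a x ^ (-σ) = Real.exp (-σ * cnt K a x) := by
  unfold cond
  rw [← Real.exp_mul]
  congr 1
  ring

/-- the set of the exceptions, with a bound for their number -/
theorem data (K : Type) [Field K] [NumberField K] (q : ℕ) (hq : 3 ≤ q) (a : Fin q → ℚ)
    (ha : Function.Injective a) (κ : ℝ) (hκ : 0 < κ) :
    ∃ (ν : ℝ) (E : Set K), 0 < ν ∧ ν ≤ 2 / q ∧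
      (∀ ε : ℝ, 0 < ε → ∃ C : ℝ, ∀ X : ℝ, 1 ≤ X → {x | x ∈ E ∧ cond K a x ≤ X}.Finite ∧
        ({x | x ∈ E ∧ cond K a x ≤ X}.ncard : ℝ) ≤ C * X ^ (2 / (q : ℝ) - ν + ε)) ∧
      ∀ J : Set K, {x | x ∈ E ∧ x ∈ J}.Finite → VojtaOn K a κ J := by
  have hq0 : (0 : ℝ) < q := by exact_mod_cast (by omega : 0 < q)
  obtain ⟨h1, h2⟩ := OneExceptionalSet.result K q hq a ha
  obtain ⟨C1, hC1⟩ := (h1 1 one_pos).1
  obtain ⟨E, ⟨ν, C, hν, hC0, hC⟩, -, hE⟩ := h2 κ hκ
  have hfinA : (Set.range fun j => algebraMap ℚ K (a j)).Finite := Set.finite_range _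
  refine ⟨min ν (2 / q), E, lt_min hν (by positivity), min_le_right _ _, fun ε hε => ?_, fun J hJ => ?_⟩
  · refine ⟨C + ((Set.range fun j => algebraMap ℚ K (a j)).ncard : ℝ), fun X hX => ?_⟩
    have hX0 : 0 < X := by linarith
    have hsub : {x | x ∈ E ∧ cond K a x ≤ X} ⊆ (E ∩ Values K a X) ∪ Set.range fun j => algebraMap ℚ K (a j) := by
      rintro x ⟨g1, g2⟩
      by_cases hx : ∀ j, x ≠ algebraMap ℚ K (a j)
      · exact Or.inl ⟨g1, hx, (Real.le_log_iff_exp_le hX0).2 g2⟩
      · push Not at hx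
        obtain ⟨j, hj⟩ := hx
        exact Or.inr ⟨j, hj.symm⟩
    have hfin1 : (E ∩ Values K a X).Finite := (hC1 X hX).1.subset Set.inter_subset_right
    have hfin2 := hfin1.union hfinA
    refine ⟨hfin2.subset hsub, ?_⟩
    have h3 : ({x | x ∈ E ∧ cond K a x ≤ X}.ncard : ℝ) ≤
        ((E ∩ Values K a X).ncard : ℝ) + ((Set.range fun j => algebraMap ℚ K (a j)).ncard : ℝ) := by
      exact_mod_cast (Set.ncard_le_ncard hsub hfin2).trans (Set.ncard_union_le _ _)
    have h4 : X ^ (2 / (q : ℝ) - ν) ≤ X ^ (2 / (q : ℝ) - min ν (2 / q) + ε) := by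
      apply Real.rpow_le_rpow_of_exponent_le hX
      have := min_le_left ν (2 / (q : ℝ))
      linarith
    have h5 : 1 ≤ X ^ (2 / (q : ℝ) - min ν (2 / q) + ε) := by
      apply Real.one_le_rpow hX
      have := min_le_right ν (2 / (q : ℝ))
      linarith
    have h6 := hC X hX
    have h7 : (0 : ℝ) ≤ ((Set.range fun j => algebraMap ℚ K (a j)).ncard : ℝ) := Nat.cast_nonneg _
    rw [add_mul]
    have h8 := mul_le_mul_of_nonneg_left h4 hC0.le
    have h9 := mul_le_mul_of_nonneg_left h5 h7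
    linarith
  · refine ⟨_, hJ, ?_⟩
    intro k _ _ A _ _ _ _ _ _ _ u y hy0 hyr
    obtain ⟨⟨c, hc⟩, h4⟩ := hE k A u y hy0 hyr
    refine ⟨⟨c, fun x hxJ hxF hx L _ _ _ _ φ hφ S hS => hc x (fun hxE => hxF ⟨hxE, hxJ⟩) hx L φ hφ S hS⟩,
      fun S hS => ?_⟩
    obtain ⟨R, hR, h5⟩ := h4 S hS
    refine ⟨R ∪ {x | x ∈ E ∧ x ∈ J}, hR.union hJ, fun x hxJ hxR hx L _ _ _ _ φ hφ => ?_⟩
    exact h5 x (fun hxE => hxR (Or.inr ⟨hxE, hxJ⟩)) (fun h => hxR (Or.inl h)) hx L φ hφ

theorem vojta_mono {K : Type} [Field K] [NumberField K] {q : ℕ} {a : Fin q → ℚ} {κ κ' : ℝ} (h : κ ≤ κ') {J : Set K}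
    (hJ : VojtaOn K a κ J) : VojtaOn K a κ' J := by
  obtain ⟨F, hF, h1⟩ := hJ
  refine ⟨F, hF, ?_⟩
  intro k _ _ A _ _ _ _ _ _ _ u y hy0 hyr
  obtain ⟨⟨c, hc⟩, h4⟩ := h1 k A u y hy0 hyr
  have key : ∀ x : K, κ * height x ≤ κ' * height x := fun x => mul_le_mul_of_nonneg_right h (height_nonneg x)
  refine ⟨⟨c, fun x hxJ hxF hx L _ _ _ _ φ hφ S hS => ?_⟩, fun S hS => ?_⟩
  · have h2 := hc x hxJ hxF hx L φ hφ S hS
    have h3 := key x
    nlinarith
  · obtain ⟨R, hR, h5⟩ := h4 S hS
    refine ⟨R, hR, fun x hxJ hxR hx L _ _ _ _ φ hφ => ?_⟩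
    have h2 := h5 x hxJ hxR hx L φ hφ
    have h3 := key x
    nlinarith

/-- **Theorem.** Let `K` be a number field and `a_1, …, a_q` distinct rational numbers, `q ≥ 3`; `cnt K a x` is the truncated
counting function `N(x)` of `x ∈ K` with respect to `[a_1] + … + [a_q]`, and `VojtaOn K a κ J` means that for all points of
all curves over the `x ∈ J`, outside a finite set which does not depend on the curve, the inequality of the question holds
with the error term `- (2 - κ) h(x)`. There is a function `ν` with `0 < ν κ ≤ 2 / q` for all `κ > 0` such that: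
(1) For every real vector space `V` of finite dimension `m ≥ 1` and every map `φ : K → V`, for almost every `z ∈ V`, for all
`κ > 0` and `σ > (2 / q - ν κ) / m`: `VojtaOn K a κ J` for `J` the set of the `x ∈ K`, of whatever height, with
`‖φ x - z‖ ≤ exp (- σ N(x))`.
(2) In particular for every embedding `ρ` of `K` in the complex numbers and almost every real `z`, for all `κ > 0` and
`σ > 2 / q - ν κ`, the critical exponent being `2 / q`: `VojtaOn K a κ J` for the set `J` of the `x` with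
`|ρ x - z| ≤ exp (- σ N(x))`.
(3) For every map `φ` of `K` to a metric space `M`, `κ > 0` and `σ > 0` there is a set `E ⊆ M` of Hausdorff dimension at
most `(2 / q - ν κ) / σ` such that for all `z` outside `E`: `VojtaOn K a κ J` for the set `J` of the `x` with
`dist (φ x, z) ≤ exp (- σ N(x))`. -/
theorem result (K : Type) [Field K] [NumberField K] (q : ℕ) (hq : 3 ≤ q) (a : Fin q → ℚ)
    (ha : Function.Injective a) :
    ∃ ν : ℝ → ℝ, (∀ κ : ℝ, 0 < κ → 0 < ν κ ∧ ν κ ≤ 2 / q) ∧
      (∀ (V : Type) [NormedAddCommGroup V] [NormedSpace ℝ V] [FiniteDimensional ℝ V] [MeasurableSpace V]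
        [BorelSpace V] (μ : Measure V) [μ.IsAddHaarMeasure], 0 < Module.finrank ℝ V → ∀ φ : K → V,
        ∀ᵐ z ∂μ, ∀ κ σ : ℝ, 0 < κ → (2 / (q : ℝ) - ν κ) / Module.finrank ℝ V < σ →
          VojtaOn K a κ {x | ‖φ x - z‖ ≤ Real.exp (-σ * cnt K a x)}) ∧
      (∀ ρ : K →+* ℂ, ∀ᵐ z : ℝ, ∀ κ σ : ℝ, 0 < κ → 2 / (q : ℝ) - ν κ < σ →
          VojtaOn K a κ {x | ‖ρ x - (z : ℂ)‖ ≤ Real.exp (-σ * cnt K a x)}) ∧
      ∀ (M : Type) [MetricSpace M] (φ : K → M) (κ σ : ℝ), 0 < κ → 0 < σ → ∃ E : Set M,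
        dimH E ≤ ENNReal.ofReal ((2 / (q : ℝ) - ν κ) / σ) ∧ ∀ z : M, z ∉ E →
          VojtaOn K a κ {x | dist (φ x) z ≤ Real.exp (-σ * cnt K a x)} := by
  have hd := fun n : ℕ => data K q hq a ha (1 / ((n : ℝ) + 1)) (by positivity)
  choose ν E hν0 hν1 hC hE using hd
  have hn : ∀ κ : ℝ, 0 < κ → 1 / (((⌈1 / κ⌉₊ : ℕ) : ℝ) + 1) ≤ κ := by
    intro κ hκ
    have h1 : 1 / κ ≤ ((⌈1 / κ⌉₊ : ℕ) : ℝ) := Nat.le_ceil _
    rw [div_le_iff₀ hκ] at h1
    rw [div_le_iff₀ (by positivity)]
    nlinarith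
  have hsub : ∀ J J' : Set K, ∀ κ : ℝ, J' ⊆ J → VojtaOn K a κ J → VojtaOn K a κ J' := by
    rintro J J' κ hJ ⟨F, hF, h1⟩
    refine ⟨F, hF, ?_⟩
    intro k _ _ A _ _ _ _ _ _ _ u y hy0 hyr
    obtain ⟨⟨c, hc⟩, h4⟩ := h1 k A u y hy0 hyr
    refine ⟨⟨c, fun x hxJ hxF hx L _ _ _ _ φ hφ S hS => hc x (hJ hxJ) hxF hx L φ hφ S hS⟩, fun S hS => ?_⟩
    obtain ⟨R, hR, h5⟩ := h4 S hS
    exact ⟨R, hR, fun x hxJ hxR hx L _ _ _ _ φ hφ => h5 x (hJ hxJ) hxR hx L φ hφ⟩
  have h1 : ∀ (V : Type) [NormedAddCommGroup V] [NormedSpace ℝ V] [FiniteDimensional ℝ V] [MeasurableSpace V]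
        [BorelSpace V] (μ : Measure V) [μ.IsAddHaarMeasure], 0 < Module.finrank ℝ V → ∀ φ : K → V,
        ∀ᵐ z ∂μ, ∀ κ σ : ℝ, 0 < κ → (2 / (q : ℝ) - ν ⌈1 / κ⌉₊) / Module.finrank ℝ V < σ →
          VojtaOn K a κ {x | ‖φ x - z‖ ≤ Real.exp (-σ * cnt K a x)} := by
    intro V _ _ _ _ _ μ _ hV φ
    have h2 : ∀ n : ℕ, ∀ᵐ z ∂μ, ∀ σ : ℝ, (2 / (q : ℝ) - ν n) / Module.finrank ℝ V < σ →
        {x | x ∈ E n ∧ dist (φ x) z ≤ cond K a x ^ (-σ)}.Finite := by
      intro n
      have h3 := Pool.Agent.H2N.ae_family_space μ hV φ (cond K a) (one_le_cond K a) (s := 2 / (q : ℝ) - ν n)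
        (sub_nonneg.2 (hν1 n)) (J := Unit) (fun _ => E n) (fun _ => hC n)
      filter_upwards [h3] with z hz σ hσ
      exact hz σ hσ ()
    filter_upwards [ae_all_iff.2 h2] with z hz κ σ hκ hσ
    refine vojta_mono (hn κ hκ) (hE _ _ ((hz _ σ hσ).subset ?_))
    rintro x ⟨g1, g2⟩
    refine ⟨g1, ?_⟩
    rw [cond_rpow, dist_eq_norm]
    exact g2
  refine ⟨fun κ => ν ⌈1 / κ⌉₊, fun κ _ => ⟨hν0 _, hν1 _⟩, h1, fun ρ => ?_, fun M _ φ κ σ hκ hσ => ?_⟩
  · have h2 := h1 ℝ volume (by rw [Module.finrank_self]; exact one_pos) (fun x => (ρ x).re)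
    rw [Module.finrank_self, Nat.cast_one] at h2
    filter_upwards [h2] with z hz κ σ hκ hσ
    refine hsub _ _ κ ?_ (hz κ σ hκ (by rw [div_one]; exact hσ))
    intro x hx
    refine le_trans ?_ (show ‖ρ x - (z : ℂ)‖ ≤ Real.exp (-σ * cnt K a x) from hx)
    have h6 := Complex.abs_re_le_norm (ρ x - (z : ℂ))
    rw [Complex.sub_re, Complex.ofReal_re] at h6
    exact h6
  · obtain ⟨S, hS1, hS2⟩ := Pool.Agent.H107.ME.dim_family φ (cond K a) (one_le_cond K a)
      (s := 2 / (q : ℝ) - ν ⌈1 / κ⌉₊) (sub_nonneg.2 (hν1 _)) hσ (J := Unit) (fun _ => E ⌈1 / κ⌉₊) (fun _ => hC _)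
    refine ⟨S, hS1, fun z hz => vojta_mono (hn κ hκ) (hE _ _ ((hS2 z hz ()).subset ?_))⟩
    rintro x ⟨g1, g2⟩
    refine ⟨g1, ?_⟩
    rw [cond_rpow]
    exact g2

end Pool.Agent.Results.MP_e44225_nt.NearAlmostEveryPoint
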